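import Pool.Agent.N757.AS.Stm2
import Pool.Agent.N572.DR.Inv

/-!
# The abc conjecture over a larger number field implies the one over the smaller field

Project AS (helper757), part AS/DESC by helper862.
-/

set_option autoImplicit false
set_option linter.all false

namespace Pool.Agent.N862.AS.DESC

open NumberField IsDedekindDomain Module Pool.Agent.N757.RD Pool.Agent.N757.TL

section ext

variable {K L : Type} [Field K] [NumberField K] [Field L] [NumberField L] [Algebra K L]

theorem mk_eq_one {M : Type} [Field M] [NumberField M] (p : HeightOneSpectrum (𝓞 M)) (y : M) :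
    FinitePlace.mk p y = 1 ↔ p.valuation M y = 1 := by
  have hN0 := HeightOneSpectrum.absNorm_ne_zero p
  have hN := HeightOneSpectrum.one_lt_absNorm_nnreal p
  have hval' : FinitePlace.mk p y = (WithZeroMulInt.toNNReal hN0 (p.valuation M y) : ℝ) := by
    rw [FinitePlace.mk_apply, FinitePlace.norm_embedding']
  rw [hval', NNReal.coe_eq_one]
  exact WithZeroMulInt.toNNReal_eq_one_iff _ hN0 hN.ne'

/-- the absolute value at a prime below -/
theorem one_above (v : HeightOneSpectrum (𝓞 K)) (w : HeightOneSpectrum (𝓞 L))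
    (hw : w.asIdeal.LiesOver v.asIdeal) (z : K) (hz : FinitePlace.mk v z = 1) :
    FinitePlace.mk w (algebraMap K L z) = 1 := by
  rw [mk_eq_one] at hz ⊢
  rw [← HeightOneSpectrum.valuation_liesOver L v w, hz, one_pow]

/-- the prime below -/
theorem exists_below (w : HeightOneSpectrum (𝓞 L)) : ∃ v : HeightOneSpectrum (𝓞 K),
    w.asIdeal.LiesOver v.asIdeal := ⟨w.under (𝓞 K), ⟨rfl⟩⟩

/-- the primes above a prime -/
theorem sum_above (v : HeightOneSpectrum (𝓞 K)) : ∃ W : Finset (HeightOneSpectrum (𝓞 L)),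
    (∀ w, w ∈ W ↔ w.asIdeal.LiesOver v.asIdeal) ∧
      ∑ w ∈ W, Real.log (Ideal.absNorm w.asIdeal : ℝ) ≤
        finrank K L * Real.log (Ideal.absNorm v.asIdeal : ℝ) := by
  classical
  have hmax : v.asIdeal.IsMaximal := v.isMaximal
  have h1 := Ideal.sum_ramification_inertia (𝓞 L) K L (p := v.asIdeal) v.ne_bot
  have hmem : ∀ P, P ∈ IsDedekindDomain.primesOverFinset v.asIdeal (𝓞 L) ↔
      P.IsPrime ∧ P.LiesOver v.asIdeal :=
    fun P => IsDedekindDomain.mem_primesOverFinset_iff v.ne_bot _
  let f : {P // P ∈ IsDedekindDomain.primesOverFinset v.asIdeal (𝓞 L)} →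
      HeightOneSpectrum (𝓞 L) := fun P =>
    ⟨P.1, ((hmem P.1).1 P.2).1, by
      have := ((hmem P.1).1 P.2).2
      exact Ideal.ne_bot_of_liesOver_of_ne_bot v.ne_bot P.1⟩
  refine ⟨(IsDedekindDomain.primesOverFinset v.asIdeal (𝓞 L)).attach.image f, fun w => ?_, ?_⟩
  · rw [Finset.mem_image]
    constructor
    · rintro ⟨P, -, rfl⟩
      exact ((hmem P.1).1 P.2).2
    · intro h
      exact ⟨⟨w.asIdeal, (hmem _).2 ⟨w.isPrime, h⟩⟩, Finset.mem_attach _ _, rfl⟩
  · rw [Finset.sum_image]
    · rw [← h1]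
      push_cast
      rw [Finset.sum_mul, ← Finset.sum_attach (IsDedekindDomain.primesOverFinset v.asIdeal (𝓞 L))
        (fun i => (v.asIdeal.ramificationIdx' i : ℝ) * (v.asIdeal.inertiaDeg' i : ℝ) *
          Real.log (Ideal.absNorm v.asIdeal : ℝ))]
      refine Finset.sum_le_sum fun P _ => ?_
      have hP := (hmem P.1).1 P.2
      have hlo := hP.2
      have hN := Ideal.absNorm_eq_pow_inertiaDeg'_of_liesOver (f P).asIdeal v.asIdeal v.isPrime
        v.ne_bot
      rw [hN]
      push_cast
      rw [Real.log_pow]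
      have h3 : 1 ≤ v.asIdeal.ramificationIdx' P.1 :=
        Nat.one_le_iff_ne_zero.2
          (Ideal.IsDedekindDomain.ramificationIdx'_ne_zero_of_liesOver P.1 v.ne_bot)
      have h4 : (1 : ℝ) ≤ (v.asIdeal.ramificationIdx' P.1 : ℝ) := by exact_mod_cast h3
      have h5 := (logN_pos v).le
      have h6 : (0 : ℝ) ≤ (v.asIdeal.inertiaDeg' P.1 : ℝ) * Real.log (Ideal.absNorm v.asIdeal : ℝ) :=
        mul_nonneg (Nat.cast_nonneg _) h5
      have h7 : (v.asIdeal.inertiaDeg' (f P).asIdeal : ℝ) = (v.asIdeal.inertiaDeg' P.1 : ℝ) := rfl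
      rw [h7, mul_assoc]
      nlinarith
    · intro P _ Q _ h
      apply Subtype.ext
      exact congrArg HeightOneSpectrum.asIdeal h

/-- the radical over the larger field -/
theorem R_ext {y : K} (h0 : y ≠ 0) (h1 : y ≠ 1) :
    R (algebraMap K L y) ≤ finrank K L * R y := by
  classical
  have h0' : algebraMap K L y ≠ 0 := (map_ne_zero _).2 h0
  have h1' : algebraMap K L y ≠ 1 := fun h => h1 ((algebraMap K L).injective (by rw [h, map_one]))
  unfold R
  rw [W_eq (finite_I h0' h1'), W_eq (finite_I h0 h1)]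
  choose F hF1 hF2 using fun v : HeightOneSpectrum (𝓞 K) => sum_above (L := L) v
  have hsub : (finite_I h0' h1').toFinset ⊆ (finite_I h0 h1).toFinset.biUnion F := by
    intro w hw
    rw [Set.Finite.mem_toFinset] at hw
    obtain ⟨v, hv⟩ := exists_below (K := K) w
    rw [Finset.mem_biUnion]
    refine ⟨v, ?_, (hF1 v w).2 hv⟩
    rw [Set.Finite.mem_toFinset]
    by_contra hcon
    simp only [I, Set.mem_ofPred_eq, not_or, not_not] at hcon
    have h2 := one_above v w hv _ hcon.1
    have h3 := one_above v w hv _ hcon.2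
    rw [map_sub, map_one] at h3
    rcases hw with h | h
    · exact h h2
    · exact h h3
  refine (Finset.sum_le_sum_of_subset_of_nonneg hsub fun w _ _ => (logN_pos w).le).trans ?_
  rw [Finset.sum_biUnion]
  · rw [Finset.mul_sum]
    exact Finset.sum_le_sum fun v _ => hF2 v
  · intro v _ v' _ hne
    rw [Function.onFun, Finset.disjoint_left]
    intro w hw hw'
    apply hne
    have h1 := ((hF1 v w).1 hw).over
    have h2 := ((hF1 v' w).1 hw').over
    exact HeightOneSpectrum.ext (h1.trans h2.symm)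

end ext

/-- **AS/DESC.** -/
theorem t : Pool.Agent.N757.AS.StmDesc := by
  intro K L _ _ _ _ _ hL ε hε
  obtain ⟨C, hC⟩ := hL ε hε
  refine ⟨C / finrank K L, fun y hy => ?_⟩
  have hn : (0 : ℝ) < finrank K L := by exact_mod_cast (finrank_pos (R := K) (M := L))
  have h0' : algebraMap K L y ≠ 0 := (map_ne_zero _).2 hy.1
  have h1' : algebraMap K L y ≠ 1 := fun h =>
    hy.2 ((algebraMap K L).injective (by rw [h, map_one]))
  have h1 := hC (algebraMap K L y) ⟨h0', h1'⟩
  have h2 : D (algebraMap K L y) = finrank K L * D y := Pool.Agent.N572.DR.Inv.ht_ext y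
  have h3 := R_ext (L := L) hy.1 hy.2
  rw [h2] at h1
  have h4 : (1 + ε) * R (algebraMap K L y) ≤ (1 + ε) * (finrank K L * R y) :=
    mul_le_mul_of_nonneg_left h3 (by linarith)
  have h5 : (finrank K L : ℝ) * D y ≤ finrank K L * ((1 + ε) * R y + C / finrank K L) := by
    have h6 : (finrank K L : ℝ) * ((1 + ε) * R y + C / finrank K L) =
        (1 + ε) * (finrank K L * R y) + C := by
      field_simp
    rw [h6]
    linarith
  exact le_of_mul_le_mul_left h5 hn

end Pool.Agent.N862.AS.DESC
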